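import Pool.Agent.Y728.RC.Av
import Pool.Agent.TH344.DS.Main
import Pool.Agent.W307.RS.MainD
import Pool.Agent.W307.FK.Main
import Pool.Agent.W307.RT.Tors

/-!
# The average rank of the curves with full rational 2-torsion in the three orderings

All elliptic curves over `ℚ` with full rational 2-torsion, ordered by the conductor, by the minimal
discriminant or by the naive height. No relation between the conductor and the height is assumed and
no curve is left out. In each ordering the average rank is bounded, and the average of the `θ`-th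
power of the order of the 2-Selmer group is bounded for every `θ < 2 / 3`.
-/

set_option autoImplicit false

namespace Pool.Agent.Results.MP_6073f3_nt.AverageRankThreeOrderings

open Finset Filter Topology
open Pool.Agent.Y667.SX (Sel2H)

/-- the curve `y² = x³ + A x + B` over `ℚ`, `c = (A, B)` -/
def E (c : ℤ × ℤ) : WeierstrassCurve ℚ := ⟨0, 0, 0, (c.1 : ℚ), (c.2 : ℚ)⟩

/-- the absolute value of the minimal discriminant of an elliptic curve `W` over `ℚ`: the smallest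
absolute value of the discriminant of a Weierstrass equation `V` with integer coefficients which is
isomorphic to `W` over `ℚ` -/
noncomputable def minDisc (W : WeierstrassCurve ℚ) : ℕ :=
  sInf {n : ℕ | ∃ (V : WeierstrassCurve ℤ) (C : WeierstrassCurve.VariableChange ℚ),
    C • W = V.map (Int.castRingHom ℚ) ∧ n = V.Δ.natAbs}

/-- the naive height of `y² = x³ + A x + B` is at most `Z` -/
def HeightLe (c : ℤ × ℤ) (Z : ℕ) : Prop := 4 * |c.1| ^ 3 ≤ Z ∧ 27 * c.2 ^ 2 ≤ Z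

/-- the minimal discriminant of `y² = x³ + A x + B` is at most `Z` in absolute value -/
def DiscLe (c : ℤ × ℤ) (Z : ℕ) : Prop := minDisc (E c) ≤ Z

/-- the prime-to-6 part of the conductor of `y² = x³ + A x + B` (for the models of `Fam`): the
product over the primes `p ≥ 5` dividing `4 A³ + 27 B²` of `p` (multiplicative reduction: `p ∤ A`) or
`p²` (additive reduction: `p ∣ A`) -/
def cond6 (c : ℤ × ℤ) : ℕ :=
  ∏ p ∈ ((4 * c.1 ^ 3 + 27 * c.2 ^ 2 : ℤ).natAbs.primeFactors.filter (5 ≤ ·) : Finset ℕ),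
    if ((p : ℕ) : ℤ) ∣ c.1 then p ^ 2 else p

/-- the conductor is at most `Z`, where `f c` is the part of the conductor at the primes `2`
and `3` -/
def CondLe (f : ℤ × ℤ → ℕ) (c : ℤ × ℤ) (Z : ℕ) : Prop := f c * cond6 c ≤ Z

/-- the three orderings: by the naive height, by the minimal discriminant, by the conductor (`f` may
be any function with values between `1` and `2 ^ 8 * 3 ^ 5`; the part of the conductor at the primes
`2` and `3` is such a function) -/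
def IsOrdering (I : ℤ × ℤ → ℕ → Prop) : Prop :=
  I = HeightLe ∨ I = DiscLe ∨
    ∃ f : ℤ × ℤ → ℕ, (∀ c, 1 ≤ f c ∧ f c ≤ 2 ^ 8 * 3 ^ 5) ∧ I = CondLe f

/-- The pairs `(A, B)` of integers such that `4 A³ + 27 B² ≠ 0`, there is no prime `p` with
`p⁴ ∣ A` and `p⁶ ∣ B`, `Z/2 x Z/2` embeds in the group of the rational points of
`y² = x³ + A x + B`, and the size is at most `Z`. Every elliptic curve over `ℚ` with full rational
2-torsion is isomorphic to `E c` for exactly one pair `c` with the first three properties. -/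
def Fam (I : ℤ × ℤ → ℕ → Prop) (Z : ℕ) : Set (ℤ × ℤ) :=
  {c : ℤ × ℤ | 4 * c.1 ^ 3 + 27 * c.2 ^ 2 ≠ 0 ∧
    (∀ p : ℕ, p.Prime → ¬ ((p : ℤ) ^ 4 ∣ c.1 ∧ (p : ℤ) ^ 6 ∣ c.2)) ∧
    (∃ f : ZMod 2 × ZMod 2 →+ (E c).toAffine.Point, Function.Injective f) ∧ I c Z}

/-- the Mordell-Weil rank -/
noncomputable def rank (c : ℤ × ℤ) : ℕ := Module.finrank ℤ (E c).toAffine.Point

/-- the average of `g` over the curves of size at most `Z` -/
noncomputable def average (I : ℤ × ℤ → ℕ → Prop) (g : ℤ × ℤ → ℝ) (Z : ℕ) : ℝ :=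
  (∑ᶠ c ∈ Fam I Z, g c) / (Fam I Z).ncard

/-! ### Comparison with the families of the library -/

/-- the curves -/
def Pc (c : ℤ × ℤ) : Prop := 4 * c.1 ^ 3 + 27 * c.2 ^ 2 ≠ 0 ∧
  (∀ p : ℕ, p.Prime → ¬ ((p : ℤ) ^ 4 ∣ c.1 ∧ (p : ℤ) ^ 6 ∣ c.2)) ∧
  ∃ f : ZMod 2 × ZMod 2 →+ (E c).toAffine.Point, Function.Injective f

lemma hasT {c : ℤ × ℤ} (h : Pc c) :
    Pool.Agent.W307.RT.HasT 2 (Pool.Agent.W307.RT.Sh c.1 c.2) :=
  Pool.Agent.W307.RT.tors_iff.2 h.2.2

lemma mem_Fam {I : ℤ × ℤ → ℕ → Prop} {Z : ℕ} {c : ℤ × ℤ} (h : c ∈ Fam I Z) : Pc c :=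
  ⟨h.1, h.2.1, h.2.2.1⟩

lemma FamH_eq (H : ℕ) : Fam HeightLe H = (Pool.Agent.W307.RT.Cv 2 H : Set (ℤ × ℤ)) := by
  classical
  ext c
  have h : Pool.Agent.W307.RT.HasT 2 (Pool.Agent.W307.RT.Sh c.1 c.2) ↔
    ∃ f : ZMod 2 × ZMod 2 →+ (E c).toAffine.Point, Function.Injective f :=
    Pool.Agent.W307.RT.tors_iff
  unfold Fam HeightLe Pool.Agent.W307.RT.Cv
  rw [Set.mem_ofPred_eq, mem_coe, mem_filter, h, mem_product, mem_Icc, mem_Icc]
  constructor
  · rintro ⟨h1, h2, h3, h4, h5⟩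
    refine ⟨⟨?_, ?_⟩, h1, h4, h5, h2, h3⟩
    · rw [← abs_le]
      have h0 := abs_nonneg c.1
      rcases eq_or_lt_of_le h0 with h6 | h6
      · rw [← h6]; positivity
      · have : 1 ≤ |c.1| := h6
        nlinarith [mul_nonneg h0 h0, mul_self_nonneg (|c.1| - 1)]
    · rw [← abs_le]
      have h0 := abs_nonneg c.2
      rw [← sq_abs] at h5
      rcases eq_or_lt_of_le h0 with h6 | h6
      · rw [← h6]; positivity
      · have : 1 ≤ |c.2| := h6
        nlinarith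
  · rintro ⟨-, h1, h4, h5, h2, h3⟩
    exact ⟨h1, h2, h3, h4, h5⟩

lemma FamD_eq' (Z : ℕ) : Fam DiscLe Z = Pool.Agent.W307.RS.DvS 2 Z := by
  ext c
  have h : Pool.Agent.W307.RT.HasT 2 (Pool.Agent.W307.RT.Sh c.1 c.2) ↔
      ∃ f : ZMod 2 × ZMod 2 →+ (E c).toAffine.Point, Function.Injective f :=
    Pool.Agent.W307.RT.tors_iff
  unfold Fam Pool.Agent.W307.RS.DvS
  rw [Set.mem_ofPred_eq, Set.mem_ofPred_eq, h]
  exact Iff.rfl

lemma FamD_eq (D : ℕ) : Fam DiscLe D = (Pool.Agent.TH344.DS.Dv D : Set (ℤ × ℤ)) := by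
  classical
  rw [FamD_eq']
  unfold Pool.Agent.TH344.DS.Dv
  rw [dif_pos (Pool.Agent.TH344.DS.excd.1 D), Set.Finite.coe_toFinset]

lemma cond6_eq (c : ℤ × ℤ) : cond6 c = Pool.Agent.Y679.Cr.cs c := by
  unfold cond6 Pool.Agent.Y679.Cr.cs Pool.Agent.H925R.Szpiro.condS
  rw [Pool.Agent.Y679.Cr.D_neg, Int.natAbs_neg]
  refine prod_congr rfl fun p _ => ?_
  simp only [dvd_neg]

lemma FamC_eq (f : ℤ × ℤ → ℕ) (Z : ℕ) : Fam (CondLe f) Z = Pool.Agent.Y679.Cr.Gm Pc f Z := by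
  ext c
  unfold Fam CondLe Pool.Agent.Y679.Cr.Gm Pc
  rw [Set.mem_ofPred_eq, Set.mem_ofPred_eq, cond6_eq]
  tauto

lemma good : Pool.Agent.Y728.RC.Dn.Good Pc where
  ok c h := ⟨Pool.Agent.Y679.Cr.isMin_of h.1 h.2.1, Pool.Agent.Y679.Cr.full_of (hasT h)⟩
  cv H c hc := by
    have h : c ∈ Fam HeightLe H := by rw [FamH_eq]; exact mem_coe.2 hc
    exact mem_Fam h
  low := Pool.Agent.W672.FK.lowf

lemma tendstoH : Tendsto (fun Z : ℕ => (Fam HeightLe Z).ncard) atTop atTop := by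
  simp only [FamH_eq, Set.ncard_coe_finset]
  exact Pool.Agent.W307.RT.tendsto_of_low Pool.Agent.W672.FK.lowf

lemma tendstoD : Tendsto (fun Z : ℕ => (Fam DiscLe Z).ncard) atTop atTop := by
  have h1 := Pool.Agent.W307.RT.tendsto_of_low Pool.Agent.W672.FK.lowf
  have h2 : Tendsto (fun D : ℕ => (Pool.Agent.W307.RT.Cv 2 (D / 32)).card) atTop atTop :=
    h1.comp (Nat.tendsto_div_const_atTop (by norm_num))
  obtain ⟨hD1, hD2, hD3⟩ := Pool.Agent.TH344.DS.excd
  refine tendsto_atTop_mono (fun D => ?_) h2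
  rw [FamD_eq', ← Set.ncard_coe_finset]
  exact Set.ncard_le_ncard (Pool.Agent.W307.RS.Cv_sub Pool.Agent.W554.RS.mdl 2 (D / 32) D
    (Nat.mul_div_le D 32)) (hD1 D)

/-! ### Averages -/

/-- the order of the 2-Selmer group -/
noncomputable def sz (c : ℤ × ℤ) : ℕ := (Pool.Agent.W307.SE.SelR c.1 c.2).ncard

lemma one_le_sz {c : ℤ × ℤ} (h : Pc c) : 1 ≤ sz c := by
  have h1 := Pool.Agent.Y728.RC.four_le h.1 (hasT h)
  have h2 : 1 ≤ 2 ^ Module.finrank ℤ (Pool.Agent.W307.RT.Sh c.1 c.2).toAffine.Point :=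
    Nat.one_le_two_pow
  unfold sz
  omega

/-- from finite sums to averages -/
lemma average_le {I : ℤ × ℤ → ℕ → Prop} {g : ℤ × ℤ → ℝ} (hfin : ∀ Z : ℕ, (Fam I Z).Finite) {C : ℝ}
    (h : ∀ᶠ Z : ℕ in atTop, ∀ S : Finset (ℤ × ℤ), (S : Set (ℤ × ℤ)) = Fam I Z →
      ∑ c ∈ S, g c ≤ C * S.card) : ∃ C' : ℝ, ∀ Z : ℕ, average I g Z ≤ C' := by
  have h1 : ∀ᶠ Z : ℕ in atTop, average I g Z ≤ max C 0 := by
    filter_upwards [h] with Z hZ
    obtain ⟨S, hS⟩ : ∃ S : Finset (ℤ × ℤ), (S : Set (ℤ × ℤ)) = Fam I Z :=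
      ⟨(hfin Z).toFinset, (hfin Z).coe_toFinset⟩
    unfold average
    rw [← hS, finsum_mem_coe_finset, Set.ncard_coe_finset]
    refine div_le_of_le_mul₀ (Nat.cast_nonneg _) (le_max_right _ _) ((hZ S hS).trans ?_)
    exact mul_le_mul_of_nonneg_right (le_max_left _ _) (Nat.cast_nonneg _)
  have h2 : IsBoundedUnder (· ≤ ·) atTop (average I g) := ⟨max C 0, by
    rw [eventually_map]
    exact h1⟩
  obtain ⟨C', hC'⟩ := h2.bddAbove_range
  exact ⟨C', fun Z => hC' (Set.mem_range_self Z)⟩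

lemma sum_le {I : ℤ × ℤ → ℕ → Prop} (hI : IsOrdering I) {θ : ℝ} (hθ0 : 0 < θ) (hθ : θ < 2 / 3) :
    ∃ C : ℝ, ∀ᶠ Z : ℕ in atTop, ∀ S : Finset (ℤ × ℤ), (S : Set (ℤ × ℤ)) = Fam I Z →
      ∑ c ∈ S, (sz c : ℝ) ^ θ ≤ C * S.card := by
  have hsq : ∀ c, Pc c → (sz c : ℝ) ^ θ ≤ (sz c : ℝ) ^ 2 := by
    intro c hc
    have h1 : (1 : ℝ) ≤ sz c := by exact_mod_cast one_le_sz hc
    have h2 := Real.rpow_le_rpow_of_exponent_le h1 (show θ ≤ ((2 : ℕ) : ℝ) by push_cast; linarith)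
    rwa [Real.rpow_natCast] at h2
  rcases hI with rfl | rfl | ⟨f, hf, rfl⟩
  · obtain ⟨C, hC⟩ := Pool.Agent.W307.FK.finh
    refine ⟨C, Eventually.of_forall fun Z S hS => ?_⟩
    have e : S = Pool.Agent.W307.RT.Cv 2 Z := by
      apply Finset.coe_injective
      rw [hS, FamH_eq]
    refine (sum_le_sum fun c hc => hsq c ?_).trans (?_ : ∑ c ∈ S, (sz c : ℝ) ^ 2 ≤ _)
    · have : c ∈ Fam HeightLe Z := by rw [← hS]; exact mem_coe.2 hc
      exact mem_Fam this
    · rw [e]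
      exact (hC Z).2
  · obtain ⟨C, hC⟩ := Pool.Agent.W307.FK.find
    refine ⟨C, Eventually.of_forall fun Z S hS => ?_⟩
    refine (sum_le_sum fun c hc => hsq c ?_).trans (?_ : ∑ c ∈ S, (sz c : ℝ) ^ 2 ≤ _)
    · have : c ∈ Fam DiscLe Z := by rw [← hS]; exact mem_coe.2 hc
      exact mem_Fam this
    · exact (hC Z).2.2 S (by rw [hS, FamD_eq'])
  · obtain ⟨C, Z0, hC, h⟩ := Pool.Agent.Y728.RC.avg good (fun c hc => ⟨hc.1, hasT hc⟩) hθ0 hθ
    refine ⟨C, eventually_atTop.2 ⟨Z0, fun Z hZ S hS => ?_⟩⟩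
    have hf' : Pool.Agent.Y728.RC.Dn.Bdd f := fun c => ⟨(hf c).1, (hf c).2.trans (by norm_num)⟩
    exact h f hf' Z hZ S (by rw [hS, FamC_eq])

lemma fam_fin {I : ℤ × ℤ → ℕ → Prop} (hI : IsOrdering I) (Z : ℕ) : (Fam I Z).Finite := by
  rcases hI with rfl | rfl | ⟨f, hf, rfl⟩
  · rw [FamH_eq]
    exact finite_toSet _
  · rw [FamD_eq]
    exact finite_toSet _
  · have hf' : Pool.Agent.Y728.RC.Dn.Bdd f := fun c => ⟨(hf c).1, (hf c).2.trans (by norm_num)⟩
    rw [FamC_eq]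
    exact Pool.Agent.Y728.RC.Dn.Gm_fin good hf' Z

/-- **Theorem.** For each of the three orderings (conductor, minimal discriminant, naive height) of
the elliptic curves over `ℚ` with full rational 2-torsion there are finitely many curves of size at
most `Z` and their number tends to infinity with `Z`; the average rank of the curves of size at most
`Z` is bounded; the 2-Selmer groups `Sel2H` are finite and for every `θ < 2 / 3` the average of the
`θ`-th power of their order is bounded. -/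
theorem result : ∀ I : ℤ × ℤ → ℕ → Prop, IsOrdering I →
    (∀ Z : ℕ, (Fam I Z).Finite) ∧ Tendsto (fun Z : ℕ => (Fam I Z).ncard) atTop atTop ∧
    (∃ C : ℝ, ∀ Z : ℕ, average I (fun c => (rank c : ℝ)) Z ≤ C) ∧
    (∀ Z : ℕ, ∀ c ∈ Fam I Z, Finite (Sel2H (E c))) ∧
    ∀ θ : ℝ, 0 < θ → θ < 2 / 3 → ∃ C : ℝ, ∀ Z : ℕ,
      average I (fun c => (Nat.card (Sel2H (E c)) : ℝ) ^ θ) Z ≤ C := by
  classical
  intro I hI
  have hmemS : ∀ {Z : ℕ} {S : Finset (ℤ × ℤ)}, (S : Set (ℤ × ℤ)) = Fam I Z → ∀ c ∈ S, Pc c := by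
    intro Z S hS c hc
    have : c ∈ Fam I Z := by rw [← hS]; exact mem_coe.2 hc
    exact mem_Fam this
  refine ⟨fam_fin hI, ?_, ?_, ?_, ?_⟩
  · rcases hI with rfl | rfl | ⟨f, hf, rfl⟩
    · exact tendstoH
    · exact tendstoD
    · have hf' : Pool.Agent.Y728.RC.Dn.Bdd f := fun c => ⟨(hf c).1, (hf c).2.trans (by norm_num)⟩
      simp only [FamC_eq]
      exact Pool.Agent.Y728.RC.Dn.Gm_tendsto good hf'
  · obtain ⟨C, hC⟩ := sum_le hI (θ := 1 / 2) (by norm_num) (by norm_num)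
    refine average_le (fam_fin hI) (C := C) ?_
    filter_upwards [hC] with Z hZ S hS
    refine (sum_le_sum fun c hc => ?_).trans (hZ S hS)
    have hc' := hmemS hS c hc
    exact Pool.Agent.Y728.RC.rank_le_sqrt hc'.1 (hasT hc')
  · intro Z c hc
    have hc' := mem_Fam hc
    exact (Pool.Agent.Y728.RC.sel_eq hc'.1 (hasT hc')).1.1
  · intro θ hθ0 hθ
    obtain ⟨C, hC⟩ := sum_le hI hθ0 hθ
    refine average_le (fam_fin hI) (C := C) ?_
    filter_upwards [hC] with Z hZ S hS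
    refine (sum_le_sum fun c hc => ?_).trans (hZ S hS)
    have hc' := hmemS hS c hc
    have e : Nat.card (Sel2H (E c)) = sz c :=
      (Pool.Agent.Y728.RC.sel_eq hc'.1 (hasT hc')).1.2
    rw [e]

end Pool.Agent.Results.MP_6073f3_nt.AverageRankThreeOrderings
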