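import Mathlib
import Pool.Agent.Y667.SX.Main
import Pool.Agent.W672.FK.Lowf
import Pool.Agent.W307.RT.Tors
import Pool.Agent.Y679.Cr.Conv
import Pool.Agent.Y679.Cr.Dens

/-!
# Ranks, Tate-Shafarevich groups and root numbers in the ordering by the conductor

All elliptic curves `E` over `ℚ` with full rational 2-torsion, ordered by the conductor, without any
bound on the height or on the discriminant. For every `r ≥ 0` a positive proportion of the curves
has `rank + dim Ш(E)[2] = r` and root number `(-1) ^ r`; in particular a positive proportion has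
rank `0`. If the ranks of these curves are bounded, then for every `k` a positive proportion of the
curves has `dim Ш(E)[2] ≥ k`.
-/

namespace Pool.Agent.Results.MP_6073f3_nt.RankPlusShaConductor

open Finset Filter Topology

open Pool.Agent.TH841.SH.D (Sha)

/-- the curve `y² = x³ + A x + B` over `ℚ` -/
def E (A B : ℤ) : WeierstrassCurve ℚ := ⟨0, 0, 0, (A : ℚ), (B : ℚ)⟩

/-- The prime-to-6 part of the conductor of `y² = x³ + A x + B` (there is no prime `p` with `p⁴ ∣ A`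
and `p⁶ ∣ B`): the product over the primes `p ≥ 5` dividing `4 A³ + 27 B²` of `p` (multiplicative
reduction: `p ∤ A`) or `p²` (additive reduction: `p ∣ A`) -/
def Cond6 (c : ℤ × ℤ) : ℕ :=
  ∏ p ∈ (Int.natAbs (4 * c.1 ^ 3 + 27 * c.2 ^ 2)).primeFactors.filter (fun p => 5 ≤ p),
    if (p : ℤ) ∣ c.1 then p ^ 2 else p

/-- the admissible factors: functions with values between `1` and `2 ^ 8 * 3 ^ 5`, for instance the
part of the conductor composed of the primes 2 and 3, or `f = 1` -/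
def Factor (f : ℤ × ℤ → ℕ) : Prop := ∀ c, 1 ≤ f c ∧ f c ≤ 2 ^ 8 * 3 ^ 5

/-- The pairs `(A, B)` of integers such that `4 A³ + 27 B² ≠ 0`, there is no prime `p` with
`p⁴ ∣ A` and `p⁶ ∣ B`, `Z/2 x Z/2` embeds in the group of the rational points of
`y² = x³ + A x + B`, and `f * Cond6 ≤ Z` (for a suitable factor `f`: the conductor is at most `Z`).
Every elliptic curve over `ℚ` with full rational 2-torsion is isomorphic to `E A B` for exactly one
pair with the first three properties. -/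
def Fam (f : ℤ × ℤ → ℕ) (Z : ℕ) : Set (ℤ × ℤ) :=
  {c : ℤ × ℤ | 4 * c.1 ^ 3 + 27 * c.2 ^ 2 ≠ 0 ∧
    (∀ p : ℕ, p.Prime → ¬ ((p : ℤ) ^ 4 ∣ c.1 ∧ (p : ℤ) ^ 6 ∣ c.2)) ∧
    (∃ g : ZMod 2 × ZMod 2 →+ (E c.1 c.2).toAffine.Point, Function.Injective g) ∧
    f c * Cond6 c ≤ Z}

/-- the proportion of the curves of `S` among the curves of size at most `Z` -/
noncomputable def proportion (f : ℤ × ℤ → ℕ) (S : Set (ℤ × ℤ)) (Z : ℕ) : ℝ :=
  ((Fam f Z ∩ S).ncard : ℝ) / (Fam f Z).ncard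

/-- the Mordell-Weil rank -/
noncomputable def rank (c : ℤ × ℤ) : ℕ := Module.finrank ℤ (E c.1 c.2).toAffine.Point

/-- `a_p = p + 1 - #V(𝔽_p)`, that is `p` minus the number of the affine solutions of the Weierstrass
equation modulo `p`; for a prime of multiplicative reduction this is `1` (split) or `-1`
(non-split) -/
noncomputable def ap (V : WeierstrassCurve ℤ) (p : ℕ) : ℤ :=
  p - Nat.card {z : ZMod p × ZMod p // z.2 ^ 2 + V.a₁ * z.1 * z.2 + V.a₃ * z.2 =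
    z.1 ^ 3 + V.a₂ * z.1 ^ 2 + V.a₄ * z.1 + V.a₆}

/-- the equation with integer coefficients is nonsingular over `ℚ` and at every prime the reduction
is good or multiplicative (then it is a minimal equation) -/
def Semistable (V : WeierstrassCurve ℤ) : Prop :=
  V.Δ ≠ 0 ∧ ∀ p : ℕ, p.Prime → (p : ℤ) ∣ V.Δ → ¬ (p : ℤ) ∣ V.c₄

/-- the conductor of a semistable curve -/
def conductor (V : WeierstrassCurve ℤ) : ℕ := ∏ p ∈ V.Δ.natAbs.primeFactors, p

/-- The root number of a semistable curve: the product of the local root numbers `-1` at infinity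
and `-a_p` at the primes of bad (multiplicative) reduction. -/
noncomputable def wSemi (V : WeierstrassCurve ℤ) : ℤ :=
  -∏ p ∈ V.Δ.natAbs.primeFactors, (-ap V p)

/-- the quadratic twist by `d` of the curve `V` (the curve `y² = x³ + b₂ x² + 8 b₄ x + 16 b₆`) -/
def twist (V : WeierstrassCurve ℤ) (d : ℕ) : WeierstrassCurve ℚ :=
  ⟨0, (d : ℚ) * V.b₂, 0, 8 * (d : ℚ) ^ 2 * V.b₄, 16 * (d : ℚ) ^ 3 * V.b₆⟩

/-- `w` is the root number of `W`, for the quadratic twists `W` of a semistable curve `V` of conductor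
`N` by a positive fundamental discriminant `d ≡ 1` modulo `4` prime to `N` (`d = 1` allowed): it is
`χ_d(-N) w_V`, where `χ_d(-N) = χ_d(N)` is the Jacobi symbol `(N / d)` -/
def HasRootNumber (W : WeierstrassCurve ℚ) (w : ℤ) : Prop :=
  ∃ (V : WeierstrassCurve ℤ) (d : ℕ), Semistable V ∧ Squarefree d ∧ d % 4 = 1 ∧
    d.Coprime V.Δ.natAbs ∧ (∃ C : WeierstrassCurve.VariableChange ℚ, C • W = twist V d) ∧
    w = jacobiSym (conductor V) d * wSemi V

/-- the curves with `rank + dim Ш(E)[2] = r`, that is `2 ^ rank * |Ш(E)[2]| = 2 ^ r`, and root number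
`(-1) ^ r` -/
def RankSha (r : ℕ) : Set (ℤ × ℤ) :=
  {c | 2 ^ rank c * Nat.card {x : Sha (E c.1 c.2) // x + x = 0} = 2 ^ r ∧
    HasRootNumber (E c.1 c.2) ((-1) ^ r)}

/-- the curves with `dim Ш(E)[2] ≥ k` -/
def LargeSha (k : ℕ) : Set (ℤ × ℤ) :=
  {c | Finite {x : Sha (E c.1 c.2) // x + x = 0} ∧
    2 ^ k ≤ Nat.card {x : Sha (E c.1 c.2) // x + x = 0}}

lemma rankSha_of {r : ℕ} {c : ℤ × ℤ} (hD : 4 * c.1 ^ 3 + 27 * c.2 ^ 2 ≠ 0)
    (hT : ∃ f : ZMod 2 × ZMod 2 →+ (E c.1 c.2).toAffine.Point, Function.Injective f)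
    (h : Pool.Agent.Y667.PA.TPR r c) : c ∈ RankSha r := by
  have hT' := Pool.Agent.W307.RT.tors_iff.2 hT
  obtain ⟨-, ⟨-, h2⟩, -⟩ := Pool.Agent.Y667.SX.sx_of hD hT' h.1 h.2.1
  exact ⟨h2, h.2.2.1⟩

lemma large_of {f : ℤ × ℤ → ℕ} {Z B k : ℕ} (hfin : (Fam f Z).Finite)
    (hB : ∀ c ∈ Fam f Z, rank c ≤ B) :
    proportion f (RankSha (B + k)) Z ≤ proportion f (LargeSha k) Z := by
  unfold proportion
  refine div_le_div_of_nonneg_right (Nat.cast_le.2 (Set.ncard_le_ncard ?_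
    (hfin.subset Set.inter_subset_left))) (Nat.cast_nonneg _)
  rintro c ⟨hc, h1, -⟩
  refine ⟨hc, ?_, ?_⟩
  · apply Nat.finite_of_card_ne_zero
    intro h0
    rw [h0, mul_zero] at h1
    exact (pow_ne_zero (B + k) (by norm_num : (2 : ℕ) ≠ 0)) h1.symm
  · have h2 : (2 : ℕ) ^ rank c ≤ 2 ^ B := Nat.pow_le_pow_right (by norm_num) (hB c hc)
    have h3 : 2 ^ B * 2 ^ k ≤ 2 ^ B * Nat.card {x : Sha (E c.1 c.2) // x + x = 0} := by
      rw [← pow_add, ← h1]
      exact Nat.mul_le_mul_right _ h2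
    exact Nat.le_of_mul_le_mul_left h3 (by positivity)

/-- the property without the size -/
def Pr (c : ℤ × ℤ) : Prop := 4 * c.1 ^ 3 + 27 * c.2 ^ 2 ≠ 0 ∧
    (∀ p : ℕ, p.Prime → ¬ ((p : ℤ) ^ 4 ∣ c.1 ∧ (p : ℤ) ^ 6 ∣ c.2)) ∧
    (∃ g : ZMod 2 × ZMod 2 →+ (E c.1 c.2).toAffine.Point, Function.Injective g)

lemma good : Pool.Agent.Y679.Cr.Good Pr := by
  classical
  refine ⟨fun c hc => ⟨?_, ?_⟩, fun H c hc => ?_, Pool.Agent.W672.FK.lowf⟩
  · exact Pool.Agent.Y679.Cr.isMin_of hc.1 hc.2.1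
  · exact Pool.Agent.Y679.Cr.full_of (Pool.Agent.W307.RT.tors_iff.2 hc.2.2)
  · unfold Pool.Agent.W307.RT.Cv at hc
    obtain ⟨-, h1, -, -, h2, h3⟩ := mem_filter.1 hc
    exact ⟨h1, h2, Pool.Agent.W307.RT.tors_iff.1 h3⟩

lemma cond_eq (c : ℤ × ℤ) : Pool.Agent.Y679.Cr.cs c = Cond6 c := by
  unfold Pool.Agent.Y679.Cr.cs Pool.Agent.H925R.Szpiro.condS Cond6
  rw [Pool.Agent.Y679.Cr.D_neg, Int.natAbs_neg]
  refine prod_congr rfl fun p _ => ?_
  by_cases h : (p : ℤ) ∣ c.1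
  · rw [if_pos h, if_pos (Int.dvd_neg.2 h)]
  · rw [if_neg h, if_neg fun h' => h (Int.dvd_neg.1 h')]

lemma bdd {f : ℤ × ℤ → ℕ} (hf : Factor f) : Pool.Agent.Y679.Cr.Bdd f :=
  fun c => ⟨(hf c).1, (hf c).2.trans (by norm_num)⟩

lemma Fam_eq (f : ℤ × ℤ → ℕ) (Z : ℕ) : Fam f Z = Pool.Agent.Y679.Cr.Gm Pr f Z := by
  ext c
  unfold Fam Pool.Agent.Y679.Cr.Gm
  rw [Set.mem_ofPred_eq, Set.mem_ofPred_eq, cond_eq]
  exact ⟨fun h => ⟨⟨h.1, h.2.1, h.2.2.1⟩, h.2.2.2⟩, fun h => ⟨h.1.1, h.1.2.1, h.1.2.2, h.2⟩⟩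

/-- **Theorem.** Order the elliptic curves over `ℚ` with full rational 2-torsion by the conductor
(times an arbitrary factor as in `Factor`), with no bound on the height. There are finitely many
curves of size at most `Z` and their number tends to infinity with `Z`. For every `r ≥ 0` a positive
proportion of them has `rank + dim Ш(E)[2] = r` and root number `(-1) ^ r` (for `r = 0`: rank `0`);
a lower bound `δ` of the lower density does not depend on `f`. If `rank ≤ B` for all these curves,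
then for every `k` a positive proportion of them has `dim Ш(E)[2] ≥ k`. -/
theorem result :
    (∀ f : ℤ × ℤ → ℕ, Factor f →
      (∀ Z : ℕ, (Fam f Z).Finite) ∧ Tendsto (fun Z : ℕ => (Fam f Z).ncard) atTop atTop) ∧
    (∀ r : ℕ, ∃ δ : ℝ, 0 < δ ∧ ∀ f : ℤ × ℤ → ℕ, Factor f →
      ∀ᶠ Z : ℕ in atTop, δ ≤ proportion f (RankSha r) Z) ∧
    ∀ f : ℤ × ℤ → ℕ, Factor f → ∀ B : ℕ, (∀ Z : ℕ, ∀ c ∈ Fam f Z, rank c ≤ B) →
      ∀ k : ℕ, ∃ δ : ℝ, 0 < δ ∧ ∀ᶠ Z : ℕ in atTop, δ ≤ proportion f (LargeSha k) Z := by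
  have h3 : ∀ r : ℕ, ∃ δ : ℝ, 0 < δ ∧ ∀ f : ℤ × ℤ → ℕ, Factor f →
      ∀ᶠ Z : ℕ in atTop, δ ≤ proportion f (RankSha r) Z := by
    classical
    intro r
    obtain ⟨δ, hδ, h⟩ := Pool.Agent.Y679.Cr.pos good (T := Pool.Agent.Y667.PA.TPR r) (by
      obtain ⟨c, hc, H0, h⟩ := Pool.Agent.Y667.PA.curvesPR r
      refine ⟨c, hc, H0, fun H hH => ⟨_, fun k hk => ?_, h H hH⟩⟩
      exact mem_filter.1 (mem_coe.1 hk))
    refine ⟨δ, hδ, fun f hf => ?_⟩
    filter_upwards [h f (bdd hf)] with Z hZ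
    refine hZ.trans ?_
    unfold proportion
    rw [Fam_eq]
    refine div_le_div_of_nonneg_right (Nat.cast_le.2 (Set.ncard_le_ncard ?_
      ((Pool.Agent.Y679.Cr.Gm_fin good (bdd hf) Z).subset Set.inter_subset_left)))
      (Nat.cast_nonneg _)
    rintro k ⟨h1, h2⟩
    exact ⟨h1, rankSha_of h1.1.1 h1.1.2.2 h2⟩
  refine ⟨fun f hf => ⟨fun Z => ?_, ?_⟩, h3, fun f hf B hB k => ?_⟩
  · rw [Fam_eq]
    exact Pool.Agent.Y679.Cr.Gm_fin good (bdd hf) Z
  · simp only [Fam_eq]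
    exact Pool.Agent.Y679.Cr.Gm_tendsto good (bdd hf)
  · obtain ⟨δ, hδ, h⟩ := h3 (B + k)
    refine ⟨δ, hδ, ?_⟩
    filter_upwards [h f hf] with Z hZ
    refine hZ.trans (large_of ?_ (hB Z))
    rw [Fam_eq]
    exact Pool.Agent.Y679.Cr.Gm_fin good (bdd hf) Z

end Pool.Agent.Results.MP_6073f3_nt.RankPlusShaConductor
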